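import Pool.Agent.N375.AV.D
import Pool.Agent.Results.MP_dee342_nt.CyclesBelowEntropy
import Pool.Agent.Results.MP_dee342_nt.IntervalLengths

/-!
# Cycles of the maps `T_{a,b}` and the values of additive functions and their compositions

Let `F = f_1 ∘ ... ∘ f_k` be a composition of functions which are dominated by the largest prime factor (`PD`): additive
functions with `f(q^j) ≤ C q^j` for all prime powers and different values at different large primes, for example the sum of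
the prime factors of `m` (with or without multiplicity), the largest prime factor of `m`, or Kempner's function (the least
`t` such that `m` divides `t!`). Let `α > 0`, `d ≥ 1` and `κ ≥ 0`. For all `m ≤ N` but
`K N exp (-c (log N)^(1 / (k + 1)))`:

* no cycle of the `3x+1` map on the integers has a number of elements within `F(m)^κ` of `α F(m)^d`, if
  `12 d / 13 + κ < 1`;
* no cycle of `T_{a,b}` on the integers (`3x+1` and `5x+1` among them; `a ≥ 3` and `b` odd) has its largest element in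
  absolute value within `F(m)^κ` of `α F(m)^d`, if `d H + κ ≤ 1`, where `H` is the binary entropy of `log 2 / log a`.

More generally `G (F m)` takes the place of `α F(m)^d`, where `G` is any function with steps bounded below by a positive
constant and growth at most `v^d`. The values of `F` are taken with very large multiplicities and `F m` is in general much
smaller than `m`, so that this does not follow from the counts of the lengths and of the cycles.
-/

set_option autoImplicit false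

namespace Pool.Agent.Results.MP_dee342_nt.AdditiveValues

open Finset
open Pool.Agent.N733.TG (Expanding expanding_pow)
open Pool.Agent.N375.AV (PD comp win_nat windows pd_additive pd_sopfr pd_largest pd_kempner)

/-- The map `T_{a,b}` on the integers. -/
def T (a b x : ℤ) : ℤ := if x % 2 = 0 then x / 2 else (a * x + b) / 2

/-- `Z` is a cycle (periodic orbit) of `T_{a,b}`. -/
def IsCycle (a b : ℤ) (Z : Finset ℤ) : Prop :=
  ∃ (x : ℤ) (p : ℕ), 1 ≤ p ∧ (T a b)^[p] x = x ∧ Z = (Finset.range p).image fun i => (T a b)^[i] x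

/-- the largest absolute value of an element of `Z` -/
def top (Z : Finset ℤ) : ℕ := Z.sup Int.natAbs

/-- the entropy of `log 2 / log a` -/
noncomputable def entropy (a : ℕ) : ℝ := Real.binEntropy (Real.log 2 / Real.log a) / Real.log 2

lemma le_top {Z : Finset ℤ} {x : ℤ} (hx : x ∈ Z) : |(x : ℝ)| ≤ top Z := by
  have h : x.natAbs ≤ top Z := Finset.le_sup (f := Int.natAbs) hx
  have h2 : (x.natAbs : ℝ) ≤ top Z := by exact_mod_cast h
  rwa [Nat.cast_natAbs, Int.cast_abs] at h2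

/-- the cycles in `[-X, X]` are finite in number -/
lemma cycles_finite (f : ℤ → ℤ) (X : ℝ) :
    {c : Finset ℤ | CyclesBelowEntropy.IsCycle f c ∧ ∀ x ∈ c, |(x : ℝ)| ≤ X}.Finite := by
  apply (Finset.finite_toSet (Finset.Icc (-⌊X⌋) ⌊X⌋).powerset).subset
  intro c hc
  rw [Finset.mem_coe, Finset.mem_powerset]
  intro x hx
  have h := abs_le.1 (hc.2 x hx)
  rw [Finset.mem_Icc]
  refine ⟨?_, Int.le_floor.2 h.2⟩
  have : (-x : ℤ) ≤ ⌊X⌋ := Int.le_floor.2 (by push_cast; linarith [h.1])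
  omega

open Classical in
lemma lengths_count : ∃ C : ℝ, ∀ X : ℕ, 1 ≤ X →
    (((Ioc 0 X).filter (fun t => t ∈ {p : ℕ | ∃ Z : Finset ℤ, IsCycle 3 1 Z ∧ Z.card = p})).card : ℝ) ≤
      C * (X : ℝ) ^ ((12 : ℝ) / 13) := by
  obtain ⟨C, hC⟩ := IntervalLengths.result
  refine ⟨C, fun X hX => le_trans ?_ (hC 1 X hX)⟩
  have hfin : {p : ℕ | 1 ≤ p ∧ p < 1 + X ∧ ∃ Z : Finset ℤ, IntervalLengths.IsCycle Z ∧ Z.card = p}.Finite :=
    (Set.finite_Iio (1 + X)).subset (fun p hp => hp.2.1)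
  have hsub : (((Ioc 0 X).filter (fun t => t ∈ {p : ℕ | ∃ Z : Finset ℤ, IsCycle 3 1 Z ∧ Z.card = p}) : Finset ℕ) :
      Set ℕ) ⊆ {p : ℕ | 1 ≤ p ∧ p < 1 + X ∧ ∃ Z : Finset ℤ, IntervalLengths.IsCycle Z ∧ Z.card = p} := by
    intro p hp
    rw [mem_coe, mem_filter, mem_Ioc] at hp
    exact ⟨by omega, by omega, hp.2⟩
  have h2 := Set.ncard_le_ncard hsub hfin
  rw [Set.ncard_coe_finset] at h2
  exact_mod_cast h2

/-- **Cycles and the values of additive functions and their compositions.** Let `F = f_1 ∘ ... ∘ f_k` be a composition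
of functions with the property `PD` (`F = comp fs`, `fs` the list of the `f_i`). Let `G` have steps `≥ const > 0` and growth
at most `v^d`. Let `κ ≥ 0`. (1) If `12 d / 13 + κ < 1`, there are `c > 0`, `K` such that for all `N ≥ 1`, for all `m ≤ N`
but `K N exp (-c (log N)^(1/(k+1)))`, no cycle `Z` of the `3x+1` map on the integers satisfies `||Z| - G (F m)| ≤ F(m)^κ`.
(2) If `a ≥ 3` and `b` are odd and `d H(a) + κ ≤ 1`, `H(a) < 1` the entropy of `log 2 / log a`, there are such `c`, `K` for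
the property that no cycle `Z` of `T_{a,b}` satisfies `|max |Z| - G (F m)| ≤ F(m)^κ`. Additive functions with
`f(q^j) ≤ C q^j` and different values at different large primes (for example the sum of the prime factors), the largest
prime factor and Kempner's function have the property `PD`, and `α v^d` with `α > 0`, `d ≥ 1` is an example of `G`. -/
theorem result :
    (∀ fs : List (ℕ → ℕ), (∀ f ∈ fs, PD f) → ∀ (G : ℕ → ℝ) (d : ℝ), Expanding G d → ∀ κ : ℝ, 0 ≤ κ →
      (12 / 13 * d + κ < 1 → ∃ c K : ℝ, 0 < c ∧ ∀ N : ℕ, 1 ≤ N →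
        ({m : ℕ | 1 ≤ m ∧ m ≤ N ∧ ∃ Z : Finset ℤ, IsCycle 3 1 Z ∧
          |(Z.card : ℝ) - G (comp fs m)| ≤ (comp fs m : ℝ) ^ κ}.ncard : ℝ) ≤
          K * N * Real.exp (-(c * Real.log N ^ ((1 : ℝ) / (fs.length + 1))))) ∧
      (∀ (a : ℕ) (b : ℤ), 3 ≤ a → a % 2 = 1 → b % 2 = 1 → entropy a * d + κ ≤ 1 →
        ∃ c K : ℝ, 0 < c ∧ ∀ N : ℕ, 1 ≤ N →
        ({m : ℕ | 1 ≤ m ∧ m ≤ N ∧
          ∃ Z : Finset ℤ, IsCycle a b Z ∧ |(top Z : ℝ) - G (comp fs m)| ≤ (comp fs m : ℝ) ^ κ}.ncard : ℝ) ≤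
          K * N * Real.exp (-(c * Real.log N ^ ((1 : ℝ) / (fs.length + 1)))))) ∧
    (∀ a : ℕ, 3 ≤ a → a % 2 = 1 → entropy a < 1) ∧
    ((∀ f : ℕ → ℕ, (∀ a b : ℕ, Nat.Coprime a b → f (a * b) = f a + f b) →
        (∃ C : ℕ, ∀ q j : ℕ, q.Prime → 1 ≤ j → f (q ^ j) ≤ C * q ^ j) →
        (∃ P : ℕ, ∀ p q : ℕ, p.Prime → q.Prime → P ≤ p → P ≤ q → f p = f q → p = q) → PD f) ∧
      PD (fun n => n.primeFactorsList.sum) ∧ PD (fun n => n.primeFactors.sup id) ∧
      PD (fun n => sInf {k : ℕ | n ∣ k.factorial})) ∧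
    ∀ α d : ℝ, 0 < α → 1 ≤ d → Expanding (fun v => α * (v : ℝ) ^ d) d := by
  refine ⟨fun fs hfs G d hG κ hκ => ⟨fun h1 => ?_, fun a b ha ha2 hb h1 => ?_⟩, fun a ha ha2 => ?_,
    ⟨fun f h1 h2 h3 => pd_additive h1 h2 h3, pd_sopfr, pd_largest, pd_kempner⟩,
    fun α d hα hd => expanding_pow hα hd⟩
  · obtain ⟨C, hC⟩ := lengths_count
    obtain ⟨c, K, hc, hN₀⟩ := win_nat {p : ℕ | ∃ Z : Finset ℤ, IsCycle 3 1 Z ∧ Z.card = p} fs hfs hG (s := 12 / 13)
      (κ := κ) (by norm_num) hκ (by linarith) (fun ε hε => ⟨|C|, fun X hX => by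
        refine (hC X hX).trans ((mul_le_mul_of_nonneg_right (le_abs_self C) (by positivity)).trans ?_)
        exact mul_le_mul_of_nonneg_left
          (Real.rpow_le_rpow_of_exponent_le (by exact_mod_cast hX) (by linarith)) (abs_nonneg C)⟩)
    refine ⟨c, K, hc, fun N hN => le_trans ?_ (hN₀ N hN)⟩
    have hfin : {m : ℕ | 1 ≤ m ∧ m ≤ N ∧ ∃ n : ℕ, (n = 0 ∨ n ∈ {p : ℕ | ∃ Z : Finset ℤ, IsCycle 3 1 Z ∧ Z.card = p}) ∧
        |(n : ℝ) - G (comp fs m)| ≤ (comp fs m : ℝ) ^ κ}.Finite :=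
      (Set.finite_Icc 1 N).subset (fun m hm => ⟨hm.1, hm.2.1⟩)
    have hsub : {m : ℕ | 1 ≤ m ∧ m ≤ N ∧ ∃ Z : Finset ℤ, IsCycle 3 1 Z ∧
        |(Z.card : ℝ) - G (comp fs m)| ≤ (comp fs m : ℝ) ^ κ} ⊆
        {m : ℕ | 1 ≤ m ∧ m ≤ N ∧ ∃ n : ℕ, (n = 0 ∨ n ∈ {p : ℕ | ∃ Z : Finset ℤ, IsCycle 3 1 Z ∧ Z.card = p}) ∧
          |(n : ℝ) - G (comp fs m)| ≤ (comp fs m : ℝ) ^ κ} := by
      rintro m ⟨h2, h3, Z, h4, h5⟩
      exact ⟨h2, h3, Z.card, Or.inr ⟨Z, h4, rfl⟩, h5⟩
    exact_mod_cast Set.ncard_le_ncard hsub hfin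
  · obtain ⟨η, hη0, hη, hH, hh⟩ := CyclesBelowEntropy.result a ha ha2
    obtain ⟨C, hC0, hC⟩ := hh b hb
    have hd := hG.one_le
    obtain ⟨c, K, hc, hN₀⟩ := windows {Z : Finset ℤ | IsCycle a b Z} (fun Z => (top Z : ℝ)) fs hfs hG (s := η) (κ := κ)
      hη0.le hκ (by
        have : η < entropy a := hη
        nlinarith) (fun ε hε => ⟨C, fun X hX => by
        have hsub : {Z : Finset ℤ | Z ∈ {Z : Finset ℤ | IsCycle a b Z} ∧ (top Z : ℝ) ≤ X} ⊆
            {c : Finset ℤ | CyclesBelowEntropy.IsCycle (CyclesBelowEntropy.T a b) c ∧ ∀ x ∈ c, |(x : ℝ)| ≤ X} := by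
          rintro Z ⟨h2, h3⟩
          refine ⟨h2, fun x hx => (le_top hx).trans h3⟩
        have hfin := cycles_finite (CyclesBelowEntropy.T a b) X
        refine ⟨hfin.subset hsub, ?_⟩
        have h4 := Set.ncard_le_ncard hsub hfin
        have h5 : (({Z : Finset ℤ | Z ∈ {Z : Finset ℤ | IsCycle a b Z} ∧ (top Z : ℝ) ≤ X}.ncard : ℕ) : ℝ) ≤
            ({c : Finset ℤ | CyclesBelowEntropy.IsCycle (CyclesBelowEntropy.T a b) c ∧
              ∀ x ∈ c, |(x : ℝ)| ≤ X}.ncard : ℝ) := by exact_mod_cast h4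
        refine h5.trans ((hC X hX).trans ?_)
        exact mul_le_mul_of_nonneg_left (Real.rpow_le_rpow_of_exponent_le hX (by linarith)) hC0.le⟩)
    exact ⟨c, K, hc, fun N hN => hN₀ N hN⟩
  · obtain ⟨η, hη0, hη, hH, hh⟩ := CyclesBelowEntropy.result a ha ha2
    exact hH

end Pool.Agent.Results.MP_dee342_nt.AdditiveValues
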