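import Pool.Agent.V8H18.CL.Stat

/-!
# The lengths of the cycles of the 3x+1 map in intervals: better exponents

Let `T_3` be the 3x+1 map on the integers, and let `u, v` be integers, not both zero. We count the
values `u |Z| + v odd(Z)` in an interval of `H` consecutive integers, for all the cycles `Z` of
`T_3`; `|Z|` is the number of elements and `odd(Z)` the number of odd elements of `Z`. Examples are
the length `|Z|`, the number of odd elements, the number of even elements and the length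
`|Z| + odd(Z)` of the cycle of the map `x → x/2, 3x+1`.

* Every interval of `H` integers contains `O(H ^ 0.864)` values. (For the length the starting theorem
  `IntervalLengths` of this problem has the exponent `12/13 = 0.923...`.)
* For infinitely many `Q` and all `H` between `Q` and `Q ^ 1.951`, every interval of `H` integers
  contains `O(H ^ 0.488)` values.

The exponents are `13 η / (1 + 14 η)` and `η / (1 + η)` for all `η` between the binary entropy
`0.9499...` of `log 2 / log 3` and `1`. More generally, if `|p log 2 - o log 3| ≥ c |p| ^ (-τ)` for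
all integers `p ≠ 0` and `o`, the first exponent is `τ η / (1 + η + τ η)`; this is proved for `τ = 13`
(Rhin has proved it for `τ = 7.616`).
-/

set_option autoImplicit false

namespace Pool.Agent.Results.MP_dee342_nt.LengthExponents

open Filter

/-- The map `T_{a,b}` on the integers. -/
def T (a b x : ℤ) : ℤ := if x % 2 = 0 then x / 2 else (a * x + b) / 2

/-- `Z` is a cycle (periodic orbit) of `T_3 = T_{3,1}`. -/
def IsCycle (Z : Finset ℤ) : Prop :=
  ∃ (x : ℤ) (p : ℕ), 1 ≤ p ∧ (T 3 1)^[p] x = x ∧ Z = (Finset.range p).image fun i => (T 3 1)^[i] x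

/-- the number of odd elements of `Z` -/
def odds (Z : Finset ℤ) : ℕ := (Z.filter fun x => x % 2 = 1).card

/-- The number of different values `u |Z| + v odd(Z)`, `Z` a cycle of `T_3`, among the `H` integers
`a, a + 1, ..., a + H - 1`. -/
noncomputable def count (u v a : ℤ) (H : ℕ) : ℕ :=
  {s : ℤ | a ≤ s ∧ s < a + H ∧ ∃ Z : Finset ℤ, IsCycle Z ∧ u * Z.card + v * odds Z = s}.ncard

/-- the entropy `0.9499...` of `log 2 / log 3` -/
noncomputable def entropy : ℝ := Real.binEntropy (Real.log 2 / Real.log 3) / Real.log 2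

/-- the inequality `|p log 2 - o log 3| ≥ c |p| ^ (-τ)` for all integers `p ≠ 0` and `o` -/
def Measure (τ : ℝ) : Prop := ∃ c : ℝ, 0 < c ∧ ∀ p o : ℤ, p ≠ 0 →
  c * |(p : ℝ)| ^ (-τ) ≤ |(p : ℝ) * Real.log 2 - o * Real.log 3|

lemma count_le {u v a : ℤ} {H : ℕ} {B : ℝ}
    (h : ∀ F : Finset ℤ, (∀ s ∈ F, s ∈ V8H18.CL.Values u v ∧ a ≤ s ∧ s < a + H) → (F.card : ℝ) ≤ B) :
    (count u v a H : ℝ) ≤ B := by
  have hfin : {s : ℤ | a ≤ s ∧ s < a + H ∧ ∃ Z : Finset ℤ, IsCycle Z ∧ u * Z.card + v * odds Z = s}.Finite :=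
    (Set.finite_Ico a (a + H)).subset (fun s hs => ⟨hs.1, hs.2.1⟩)
  unfold count
  rw [Set.ncard_eq_toFinset_card _ hfin]
  apply h
  intro s hs
  rw [Set.Finite.mem_toFinset] at hs
  exact ⟨hs.2.2, hs.1, hs.2.1⟩

/-- **Theorem.** Let `H₀ = 0.9499...` be the binary entropy of `log 2 / log 3`, `H₀ < η < 1`, and let `u, v` be
integers, not both zero. (1) If `τ ≥ 2` is an exponent with `|p log 2 - o log 3| ≥ c |p| ^ (-τ)` for all
`p ≠ 0` and `o`, for example `τ = 13`, then there is `C` such that any `H ≥ 1` consecutive integers contain at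
most `C H ^ (τ η / (1 + η + τ η))` values `u |Z| + v odd(Z)`, `Z` a cycle of the 3x+1 map. (2) There is `C`
such that for infinitely many `Q`, for all `H` with `Q ≤ H ≤ Q ^ (1 + η)`, any `H` consecutive integers contain
at most `C H ^ (η / (1 + η))` such values. (3) `H₀ < 0.951`; so `H ^ 0.864` is possible in (1), and `H ^ 0.488`,
for `Q ≤ H ≤ Q ^ 1.951`, in (2). -/
theorem result :
    (∀ η : ℝ, entropy < η → η < 1 → ∀ u v : ℤ, u ≠ 0 ∨ v ≠ 0 →
      (∀ τ : ℝ, 2 ≤ τ → Measure τ → ∃ C : ℝ, ∀ (a : ℤ) (H : ℕ), 1 ≤ H →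
        (count u v a H : ℝ) ≤ C * (H : ℝ) ^ (τ * η / (1 + η + τ * η))) ∧
      (∃ C : ℝ, ∃ᶠ Q : ℕ in atTop, ∀ H : ℕ, Q ≤ H → (H : ℝ) ≤ (Q : ℝ) ^ (1 + η) → ∀ a : ℤ,
        (count u v a H : ℝ) ≤ C * (H : ℝ) ^ (η / (1 + η)))) ∧
    Measure 13 ∧ entropy < 0.951 ∧
    (∀ u v : ℤ, u ≠ 0 ∨ v ≠ 0 →
      (∃ C : ℝ, ∀ (a : ℤ) (H : ℕ), 1 ≤ H → (count u v a H : ℝ) ≤ C * (H : ℝ) ^ (0.864 : ℝ)) ∧
      (∃ C : ℝ, ∃ᶠ Q : ℕ in atTop, ∀ H : ℕ, Q ≤ H → (H : ℝ) ≤ (Q : ℝ) ^ (1.951 : ℝ) → ∀ a : ℤ,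
        (count u v a H : ℝ) ≤ C * (H : ℝ) ^ (0.488 : ℝ))) := by
  have hent0 : 0 ≤ entropy := by
    have h3 := Pool.Agent.TH933.Cyc.log3_gt
    have h2 : 0 < Real.log 2 := Real.log_pos (by norm_num)
    apply div_nonneg _ h2.le
    apply Real.binEntropy_nonneg (by positivity)
    rw [div_le_one (by linarith)]
    exact Real.log_le_log (by norm_num) (by norm_num)
  have hent : entropy < 0.951 := Pool.Agent.H319R2.beta_lt
  have main : ∀ η : ℝ, entropy < η → η < 1 → ∀ u v : ℤ, u ≠ 0 ∨ v ≠ 0 →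
      (∀ τ : ℝ, 2 ≤ τ → Measure τ → ∃ C : ℝ, 0 ≤ C ∧ ∀ (a : ℤ) (H : ℕ), 1 ≤ H →
        (count u v a H : ℝ) ≤ C * (H : ℝ) ^ (τ * η / (1 + η + τ * η))) ∧
      (∃ C : ℝ, 0 ≤ C ∧ ∃ᶠ Q : ℕ in atTop, ∀ H : ℕ, Q ≤ H → (H : ℝ) ≤ (Q : ℝ) ^ (1 + η) → ∀ a : ℤ,
        (count u v a H : ℝ) ≤ C * (H : ℝ) ^ (η / (1 + η))) := by
    intro η hη hη1 u v huv
    have hη0 : 0 < η := lt_of_le_of_lt hent0 hη
    obtain ⟨α, hα, B, hB, hclose⟩ := V8H18.CL.stat_type u v huv
    obtain ⟨K, hK0, hK⟩ := V8H18.CL.values_few (η := η) hη hη0 hη1 u v hB hclose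
    refine ⟨fun τ hτ hM => ?_, ?_⟩
    · obtain ⟨c, hc, htype⟩ := hα τ (by linarith) hM
      obtain ⟨C, hC⟩ := V8H18.CL.interval_count hc hτ hη0 hη1.le hK0 htype
      refine ⟨|C|, abs_nonneg _, fun a H hH => count_le (fun F hF => ?_)⟩
      exact (hC _ hK a H hH F hF).trans (mul_le_mul_of_nonneg_right (le_abs_self C) (by positivity))
    · obtain ⟨c, hc, htype⟩ := hα 13 (by norm_num) V8H18.CL.ltype13
      refine ⟨10 + K, by positivity, ?_⟩
      rw [frequently_atTop]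
      intro n
      obtain ⟨Q, hnQ, hQ⟩ := V8H18.CL.scales hc (by norm_num) htype n
      refine ⟨Q, hnQ.le, fun H hQH hHQ a => count_le (fun F hF => ?_)⟩
      exact V8H18.CL.scale_count hη0 hK (by omega) hQ hQH hHQ a F hF
  refine ⟨fun η hη hη1 u v huv => ⟨fun τ hτ hM => ?_, ?_⟩, V8H18.CL.ltype13, hent, fun u v huv => ⟨?_, ?_⟩⟩
  · obtain ⟨C, -, hC⟩ := (main η hη hη1 u v huv).1 τ hτ hM
    exact ⟨C, hC⟩
  · obtain ⟨C, -, hC⟩ := (main η hη hη1 u v huv).2
    exact ⟨C, hC⟩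
  · obtain ⟨C, hC0, hC⟩ := (main 0.951 hent (by norm_num) u v huv).1 13 (by norm_num) V8H18.CL.ltype13
    refine ⟨C, fun a H hH => (hC a H hH).trans (mul_le_mul_of_nonneg_left ?_ hC0)⟩
    exact Real.rpow_le_rpow_of_exponent_le (by exact_mod_cast hH) (by norm_num)
  · obtain ⟨C, hC0, hC⟩ := (main 0.951 hent (by norm_num) u v huv).2
    refine ⟨C, hC.mono fun Q hQ H hQH hHQ a => ?_⟩
    rcases Nat.eq_zero_or_pos H with h0 | h0
    · subst h0
      have : count u v a 0 = 0 := by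
        unfold count
        rw [Set.ncard_eq_zero (s := _) ((Set.finite_Ico a (a + (0 : ℕ))).subset (fun s hs => ⟨hs.1, hs.2.1⟩))]
        ext s
        simp only [Set.mem_ofPred_eq, Set.mem_empty_iff_false, iff_false]
        rintro ⟨h1, h2, -⟩
        push_cast at h2
        omega
      rw [this, Nat.cast_zero, Real.zero_rpow (by norm_num), mul_zero]
    · refine (hQ H hQH (by norm_num; norm_num at hHQ; exact hHQ) a).trans (mul_le_mul_of_nonneg_left ?_ hC0)
      exact Real.rpow_le_rpow_of_exponent_le (by exact_mod_cast h0) (by norm_num)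

end Pool.Agent.Results.MP_dee342_nt.LengthExponents
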