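import Pool.Agent.V8H18.CL.Stat
import Pool.Agent.V8H18.CL.Gen
import Pool.Agent.Results.MP_dee342_nt.CycleCount

/-!
# Values of polynomials and sums of lengths of cycles

(1) Let `T_3` be the 3x+1 map on the integers, let `u, v` be integers, not both zero, and let
`val Z = u |Z| + v odd(Z)` for a cycle `Z` of `T_3` with `|Z|` elements, `odd(Z)` of them odd; for
example the length `|Z|`. For every `d ≥ 1` and `k` there is `δ > 0` such that for every integral
polynomial `f` of degree `d` and integers `m_1, ..., m_k`, among any `N` consecutive integers `n`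
there are at most `C N ^ (1 - δ)` for which `f n = m_1 val Z_1 + ... + m_k val Z_k` for some cycles
`Z_1, ..., Z_k`. Here `C` depends on `d, k, u, v` and a bound for `m_1, ..., m_k` and the leading
coefficient of `f` only, and `δ` depends on `d` and `k` only. So almost no square, almost no cube,
almost no value of any integral polynomial at a prime number is the length of a cycle; and sums and
differences of `k` lengths have density zero, in all intervals, for each `k`.

(2) For all odd `a ≥ 3` and all odd `b`, for the cycles of `T_{a,b}` (for example for the 5x+1 map)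
and every nonconstant integral polynomial `f` the set of the `n` for which `f n` is the length of a
cycle has density zero.
-/

set_option autoImplicit false

namespace Pool.Agent.Results.MP_dee342_nt.PolynomialsAndSums

open Filter Topology Polynomial

/-- The map `T_{a,b}` on the integers. -/
def T (a b x : ℤ) : ℤ := if x % 2 = 0 then x / 2 else (a * x + b) / 2

/-- `Z` is a cycle (periodic orbit) of `T_{a,b}`. -/
def IsCycle (a b : ℤ) (Z : Finset ℤ) : Prop :=
  ∃ (x : ℤ) (p : ℕ), 1 ≤ p ∧ (T a b)^[p] x = x ∧ Z = (Finset.range p).image fun i => (T a b)^[i] x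

/-- the number of odd elements of `Z` -/
def odds (Z : Finset ℤ) : ℕ := (Z.filter fun x => x % 2 = 1).card

lemma few_one {α K η : ℝ} (hK : 0 ≤ K) (hη1 : η ≤ 1) {S : Set ℤ} (hS : V8H18.CL.Few α K η S) :
    V8H18.CL.Few α K 1 S := by
  intro r hr F hF
  rcases le_or_gt r 1 with h | h
  · refine (hS r hr F hF).trans (mul_le_mul_of_nonneg_left ?_ hK)
    exact Real.rpow_le_rpow_of_exponent_ge hr h (by linarith)
  · have : F = ∅ := by
      rw [Finset.eq_empty_iff_forall_notMem]
      intro s hs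
      have h1 := (hF s hs).2 (round ((s : ℝ) * α))
      have h2 := abs_sub_round ((s : ℝ) * α)
      linarith
    rw [this, Finset.card_empty, Nat.cast_zero]
    positivity

lemma lengths_bound (a b : ℤ) (ha : a % 2 = 1) (ha3 : 3 ≤ a) (hb : b % 2 = 1) : ∃ C : ℝ,
    ∀ (P : ℕ) (ρ : ℝ), 1 ≤ P → 0 < ρ → ρ ≤ 1 → ∀ E : Finset ℤ,
      (∀ s ∈ E, s ∈ {s : ℤ | ∃ Z : Finset ℤ, IsCycle a b Z ∧ (Z.card : ℤ) = s} ∧ |s| ≤ P ∧
        ∀ m : ℤ, ρ ≤ |(s : ℝ) * (Real.log 2 / Real.log a) - m|) →
        (E.card : ℝ) ≤ C / ρ * (1 + Real.log P + Real.log (1 / ρ)) + 1 := by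
  classical
  obtain ⟨C, hC⟩ := CycleCount.result a b ha ha3 hb
  refine ⟨C, fun P ρ hP hρ hρ1 E hE => ?_⟩
  have hch : ∀ s : ℤ, ∃ Z : Finset ℤ, s ∈ E → IsCycle a b Z ∧ (Z.card : ℤ) = s := by
    intro s
    by_cases hs : s ∈ E
    · obtain ⟨Z, h⟩ := (hE s hs).1
      exact ⟨Z, fun _ => h⟩
    · exact ⟨∅, fun h => absurd h hs⟩
  choose g hg using hch
  set E1 : Finset ℤ := E.filter (fun s => (0 : ℤ) ∉ g s) with hE1
  set E2 : Finset ℤ := E.filter (fun s => ¬ (0 : ℤ) ∉ g s) with hE2
  have hsplit : E1.card + E2.card = E.card := Finset.card_filter_add_card_filter_not (s := E) _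
  have hinj : Set.InjOn g E1 := by
    intro s hs s' hs' h
    have h1 := (hg s (Finset.mem_of_mem_filter s hs)).2
    have h2 := (hg s' (Finset.mem_of_mem_filter s' hs')).2
    rw [← h1, ← h2, h]
  have hc1 := hC P ρ hP hρ hρ1 (E1.image g) (by
    intro Z hZ
    rw [Finset.mem_image] at hZ
    obtain ⟨s, hs, rfl⟩ := hZ
    rw [hE1, Finset.mem_filter] at hs
    have h1 := hg s hs.1
    obtain ⟨-, h2, h3⟩ := hE s hs.1
    refine ⟨h1.1, hs.2, ?_, fun k => ?_⟩
    · rw [← h1.2] at h2
      rw [abs_of_nonneg (by positivity)] at h2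
      exact_mod_cast h2
    · have h4 := h3 k
      rw [← h1.2] at h4
      exact_mod_cast h4)
  rw [Finset.card_image_of_injOn hinj] at hc1
  have hc2 : E2.card ≤ 1 := by
    rw [Finset.card_le_one]
    have hone : ∀ s ∈ E2, s = 1 := by
      intro s hs
      rw [hE2, Finset.mem_filter, not_not] at hs
      have h1 := hg s hs.1
      have hcyc : Pool.Agent.H446R2.CS.IsCycle (T a b) (g s) := by
        obtain ⟨x, p, hp, hx, hZ⟩ := h1.1
        exact ⟨x, p, hp, hx, hZ⟩
      have hsub : g s = {0} := by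
        apply Finset.eq_singleton_iff_unique_mem.2 ⟨hs.2, ?_⟩
        intro y hy
        obtain ⟨j, -, hj⟩ := hcyc.trans hs.2 hy
        rw [← hj]
        have h0 : T a b 0 = 0 := by simp [T]
        exact Function.iterate_fixed h0 j
      rw [← h1.2, hsub, Finset.card_singleton, Nat.cast_one]
    intro x hx y hy
    rw [hone x hx, hone y hy]
  have h1 : (E.card : ℝ) = (E1.card : ℝ) + E2.card := by exact_mod_cast hsplit.symm
  have h2 : (E2.card : ℝ) ≤ 1 := by exact_mod_cast hc2
  rw [h1]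
  linarith

/-- **Theorem.** (1) For all `d ≥ 1` and `k` there is `δ > 0` such that for all integers `u, v`, not both zero,
and all `L` there is `C`: if `f` is an integral polynomial of degree `d`, with leading coefficient at most `L`
in absolute value, and `m_1, ..., m_k` are integers, at most `L` in absolute value, then any `N ≥ 1`
consecutive integers contain at most `C N ^ (1 - δ)` integers `n` such that `f n` is the sum of the
`m_i (u |Z_i| + v odd(Z_i))` for suitable cycles `Z_1, ..., Z_k` of the 3x+1 map. (2) Let `a ≥ 3` and `b` be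
odd. For every nonconstant integral polynomial `f` the set of the `n ≥ 0` such that `f n` is the number of
elements of a cycle of `T_{a,b}` has density zero. -/
theorem result :
    (∀ d k : ℕ, 1 ≤ d → ∃ δ : ℝ, 0 < δ ∧ ∀ u v : ℤ, u ≠ 0 ∨ v ≠ 0 → ∀ L : ℝ, ∃ C : ℝ,
      ∀ f : ℤ[X], f.natDegree = d → |(f.leadingCoeff : ℝ)| ≤ L →
      ∀ m : Fin k → ℤ, (∀ i, |(m i : ℝ)| ≤ L) → ∀ (a : ℤ) (N : ℕ), 1 ≤ N →
        ({n : ℤ | a ≤ n ∧ n < a + N ∧ ∃ Z : Fin k → Finset ℤ, (∀ i, IsCycle 3 1 (Z i)) ∧
          f.eval n = ∑ i, m i * (u * (Z i).card + v * odds (Z i))}.ncard : ℝ) ≤ C * (N : ℝ) ^ (1 - δ)) ∧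
    (∀ a b : ℤ, a % 2 = 1 → 3 ≤ a → b % 2 = 1 → ∀ f : ℤ[X], 1 ≤ f.natDegree →
      Tendsto (fun N : ℕ => ({n : ℕ | n < N ∧ ∃ Z : Finset ℤ, IsCycle a b Z ∧ (Z.card : ℤ) = f.eval (n : ℤ)}.ncard : ℝ) / N)
        atTop (𝓝 0)) := by
  constructor
  · intro d k hd
    obtain ⟨δ, hδ0, -, hδ⟩ := V8H18.CL.poly_sums d hd 13 (by norm_num)
    refine ⟨δ / 2 ^ k, by positivity, ?_⟩
    intro u v huv L
    obtain ⟨α, hα, B, hB, hclose⟩ := V8H18.CL.stat_type u v huv
    obtain ⟨c, hc, htype⟩ := hα 13 (by norm_num) V8H18.CL.ltype13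
    have hent : Pool.Agent.H319R2.beta < 0.951 := Pool.Agent.H319R2.beta_lt
    obtain ⟨K, hK0, hK⟩ := V8H18.CL.values_few (η := 0.951) hent (by norm_num) (by norm_num) u v hB hclose
    obtain ⟨C, hC0, hC⟩ := hδ α c hc htype K _ hK0 (few_one hK0 (by norm_num) hK) (max L 1) (le_max_right _ _) k
    refine ⟨C, ?_⟩
    intro f hf hfL m hm a N hN
    have hfin : {n : ℤ | a ≤ n ∧ n < a + N ∧ ∃ Z : Fin k → Finset ℤ, (∀ i, IsCycle 3 1 (Z i)) ∧
        f.eval n = ∑ i, m i * (u * (Z i).card + v * odds (Z i))}.Finite :=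
      (Set.finite_Ico a (a + N)).subset (fun s hs => ⟨hs.1, hs.2.1⟩)
    rw [Set.ncard_eq_toFinset_card _ hfin]
    apply hC m (fun i => (hm i).trans (le_max_left _ _)) f hf (by
      rw [← hf, ← Polynomial.leadingCoeff]
      exact hfL.trans (le_max_left _ _)) a N hN
    intro n hn
    rw [Set.Finite.mem_toFinset] at hn
    obtain ⟨h1, h2, Z, hZ, hf2⟩ := hn
    exact ⟨h1, h2, fun i => u * (Z i).card + v * odds (Z i), fun i => ⟨Z i, hZ i, rfl⟩, hf2⟩
  · intro a b ha ha3 hb f hf
    have hta : ((a.toNat : ℕ) : ℤ) = a := Int.toNat_of_nonneg (by omega)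
    have htr : ((a.toNat : ℕ) : ℝ) = (a : ℝ) := by exact_mod_cast congrArg (Int.cast : ℤ → ℝ) hta
    have hirr : Irrational (Real.log 2 / Real.log a) := by
      have := Pool.Agent.H446R2.CS.irrational_log_div a.toNat (by
        rw [Nat.odd_iff]; omega) (by omega)
      rw [htr] at this
      exact_mod_cast this
    obtain ⟨C, hC⟩ := lengths_bound a b ha ha3 hb
    have h := V8H18.CL.density hirr hC f hf
    exact h

end Pool.Agent.Results.MP_dee342_nt.PolynomialsAndSums
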