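import Pool.Agent.R482.ST.Star
import Pool.Agent.Results.MP_dee342_nt.CyclesBelowEntropy
import Pool.Agent.Results.MP_dee342_nt.IntervalLengths

/-!
# Cycles of the maps `T_{a,b}` near powers, orbits and other sequences of almost all real numbers

Let `f_k`, `k = 0, 1, 2, …`, be positive functions on `(u, ∞)`, `u ≥ 0`, such that `f_k(x) / x` is nondecreasing, and such
that the sequence `f_k(x)` has exponent of convergence at most `τ` for each `x > u`: for instance `f_k(x) = v_k x`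
(`τ` the exponent of convergence of `v_k > 0`), `f_k(x) = x ^ (v_k)` for exponents `v_k ≥ 1` (`τ = 0`), or the
orbits `f_k(x) = g (g (⋯ g (x)))` of any map `g` with `g(x) > x` and `g(x) / x` nondecreasing (`τ = 0`). Let `θ < 1`.

* For all `x > u` outside a set of Hausdorff dimension at most `(12 / 13 + τ) / (1 - θ)`, and for each `c`, for all but
  finitely many `k`, no cycle of the `3x+1` map on the integers has a number of elements within `c f_k(x) ^ θ` of `f_k(x)`. For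
  `τ + θ < 1 / 13` this holds for almost all `x`.
* Let `a ≥ 3` and `b` be odd. For all `x > u` outside a set of Hausdorff dimension at most `(H + τ) / (1 - θ)`, where `H < 1` is
  the binary entropy of `log 2 / log a`, and for each `c`, for all but finitely many `k`, no cycle of `T_{a,b}` on the integers
  (`3x+1` and `5x+1` among them) has its largest element in absolute value within `c f_k(x) ^ θ` of `f_k(x)`. For
  `τ + θ < 1 - H` this holds for almost all `x`.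

For instance, for almost all `x > 1` and all large `k` no cycle of `T_{a,b}` has its largest element in absolute value within
`x ^ (θ k)` of `x ^ k`, if `θ < 1 - H`. The tool is `Pool/Agent/R482/ST` (helper482); the counts of the lengths and of the
cycles are the starting results `IntervalLengths` and `CyclesBelowEntropy` of this problem.
-/

set_option autoImplicit false

namespace Pool.Agent.Results.MP_dee342_nt.StarshapedSequences

open Finset

/-- The map `T_{a,b}` on the integers. -/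
def T (a b x : ℤ) : ℤ := if x % 2 = 0 then x / 2 else (a * x + b) / 2

/-- `Z` is a cycle (periodic orbit) of `T_{a,b}`. -/
def IsCycle (a b : ℤ) (Z : Finset ℤ) : Prop :=
  ∃ (x : ℤ) (p : ℕ), 1 ≤ p ∧ (T a b)^[p] x = x ∧ Z = (Finset.range p).image fun i => (T a b)^[i] x

/-- the largest absolute value of an element of `Z` -/
def top (Z : Finset ℤ) : ℕ := Z.sup Int.natAbs

/-- the entropy of `log 2 / log a` -/
noncomputable def entropy (a : ℕ) : ℝ := Real.binEntropy (Real.log 2 / Real.log a) / Real.log 2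

/-- the functions `f n` are positive on `(u, ∞)`, `u ≥ 0`, and `f n x / x` is nondecreasing there -/
def Starshaped (u : ℝ) (f : ℕ → ℝ → ℝ) : Prop :=
  0 ≤ u ∧ ∀ n : ℕ, ∀ x y : ℝ, u < x → x ≤ y → 0 < f n x ∧ f n x / x ≤ f n y / y

/-- for each `x > u` the exponent of convergence of the sequence `f n x` is at most `τ` -/
def ExpLe (u : ℝ) (f : ℕ → ℝ → ℝ) (τ : ℝ) : Prop :=
  ∀ x : ℝ, u < x → ∀ t : ℝ, τ < t → Summable (fun n : ℕ => (f n x) ^ (-t))

lemma le_top {Z : Finset ℤ} {x : ℤ} (hx : x ∈ Z) : |(x : ℝ)| ≤ top Z := by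
  have h : x.natAbs ≤ top Z := Finset.le_sup (f := Int.natAbs) hx
  have h2 : (x.natAbs : ℝ) ≤ top Z := by exact_mod_cast h
  rwa [Nat.cast_natAbs, Int.cast_abs] at h2

/-- the cycles in `[-X, X]` are finite in number -/
lemma cycles_finite (f : ℤ → ℤ) (X : ℝ) :
    {c : Finset ℤ | CyclesBelowEntropy.IsCycle f c ∧ ∀ x ∈ c, |(x : ℝ)| ≤ X}.Finite := by
  apply (Finset.finite_toSet (Finset.Icc (-⌊X⌋) ⌊X⌋).powerset).subset
  intro c hc
  rw [Finset.mem_coe, Finset.mem_powerset]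
  intro x hx
  have h := abs_le.1 (hc.2 x hx)
  rw [Finset.mem_Icc]
  refine ⟨?_, Int.le_floor.2 h.2⟩
  have : (-x : ℤ) ≤ ⌊X⌋ := Int.le_floor.2 (by push_cast; linarith [h.1])
  omega

open Classical in
lemma lengths_count : ∃ C : ℝ, ∀ X : ℕ, 1 ≤ X →
    (((Ioc 0 X).filter (fun t => t ∈ {p : ℕ | ∃ Z : Finset ℤ, IsCycle 3 1 Z ∧ Z.card = p})).card : ℝ) ≤
      C * (X : ℝ) ^ ((12 : ℝ) / 13) := by
  obtain ⟨C, hC⟩ := IntervalLengths.result
  refine ⟨C, fun X hX => le_trans ?_ (hC 1 X hX)⟩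
  have hfin : {p : ℕ | 1 ≤ p ∧ p < 1 + X ∧ ∃ Z : Finset ℤ, IntervalLengths.IsCycle Z ∧ Z.card = p}.Finite :=
    (Set.finite_Iio (1 + X)).subset (fun p hp => hp.2.1)
  have hsub : (((Ioc 0 X).filter (fun t => t ∈ {p : ℕ | ∃ Z : Finset ℤ, IsCycle 3 1 Z ∧ Z.card = p}) : Finset ℕ) :
      Set ℕ) ⊆ {p : ℕ | 1 ≤ p ∧ p < 1 + X ∧ ∃ Z : Finset ℤ, IntervalLengths.IsCycle Z ∧ Z.card = p} := by
    intro p hp
    rw [mem_coe, mem_filter, mem_Ioc] at hp
    exact ⟨by omega, by omega, hp.2⟩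
  have h2 := Set.ncard_le_ncard hsub hfin
  rw [Set.ncard_coe_finset] at h2
  exact_mod_cast h2

lemma dim_le {E : Set ℝ} {s t τ θ : ℝ} (h : dimH E ≤ ENNReal.ofReal ((s + τ) / (1 - θ))) (hst : s ≤ t) (hθ : θ < 1) :
    dimH E ≤ ENNReal.ofReal ((t + τ) / (1 - θ)) := by
  refine h.trans (ENNReal.ofReal_le_ofReal ?_)
  exact div_le_div_of_nonneg_right (by linarith) (by linarith)

/-- **Theorem.** Let `f` be starshaped functions on `(u, ∞)` of exponent of convergence at most `τ ≥ 0`, and let `θ < 1`.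
(1) There is a set `E` of Hausdorff dimension at most `(12 / 13 + τ) / (1 - θ)` such that for each `x > u` outside `E`, each `c`
and all but finitely many `k`, no cycle `Z` of the `3x+1` map on the integers satisfies `||Z| - f_k(x)| ≤ c f_k(x) ^ θ`.
(2) If `a ≥ 3` and `b` are odd, there is a set `E` of Hausdorff dimension at most `(H(a) + τ) / (1 - θ)`, `H(a) < 1` the entropy
of `log 2 / log a`, such that for each `x > u` outside `E`, each `c` and all but finitely many `k`, no cycle `Z` of `T_{a,b}`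
satisfies `|max |Z| - f_k(x)| ≤ c f_k(x) ^ θ`. (3) The functions `v_n x`, `v_n > 0`, are starshaped on `(0, ∞)`, of exponent
`τ` if `v` has exponent of convergence at most `τ`; the functions `x ^ (v_n)`, `v_n ≥ 1`, are starshaped on `(1, ∞)`, of
exponent `0` if the sums of `exp (-t v_n)` converge for `t > 0`; and the iterates of a map `g` with `g(x) > x` for `x > u` and
`g(x) / x` nondecreasing are starshaped on `(u, ∞)`, of exponent `0`. -/
theorem result :
    (∀ (f : ℕ → ℝ → ℝ) (u τ θ : ℝ), Starshaped u f → 0 ≤ τ → ExpLe u f τ → θ < 1 →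
      (∃ E : Set ℝ, dimH E ≤ ENNReal.ofReal ((12 / 13 + τ) / (1 - θ)) ∧ ∀ x : ℝ, u < x → x ∉ E → ∀ c : ℝ, ∃ k₀ : ℕ,
        ∀ k : ℕ, k₀ ≤ k → ∀ Z : Finset ℤ, IsCycle 3 1 Z → ¬ |(Z.card : ℝ) - f k x| ≤ c * (f k x) ^ θ) ∧
      (∀ (a : ℕ) (b : ℤ), 3 ≤ a → a % 2 = 1 → b % 2 = 1 →
        ∃ E : Set ℝ, dimH E ≤ ENNReal.ofReal ((entropy a + τ) / (1 - θ)) ∧ ∀ x : ℝ, u < x → x ∉ E → ∀ c : ℝ, ∃ k₀ : ℕ,
          ∀ k : ℕ, k₀ ≤ k → ∀ Z : Finset ℤ, IsCycle a b Z → ¬ |(top Z : ℝ) - f k x| ≤ c * (f k x) ^ θ)) ∧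
    (∀ a : ℕ, 3 ≤ a → a % 2 = 1 → entropy a < 1) ∧
    (∀ (v : ℕ → ℝ) (τ : ℝ), (∀ n, 0 < v n) → (∀ t : ℝ, τ < t → Summable (fun n : ℕ => (v n) ^ (-t))) →
      Starshaped 0 (fun n x => v n * x) ∧ ExpLe 0 (fun n x => v n * x) τ) ∧
    (∀ v : ℕ → ℝ, (∀ n, 1 ≤ v n) → (∀ t : ℝ, 0 < t → Summable fun n : ℕ => Real.exp (-(t * v n))) →
      Starshaped 1 (fun n x => x ^ (v n)) ∧ ExpLe 1 (fun n x => x ^ (v n)) 0) ∧
    (∀ (u : ℝ) (g : ℝ → ℝ), 0 ≤ u → (∀ x y : ℝ, u < x → x ≤ y → g x / x ≤ g y / y) → (∀ x : ℝ, u < x → x < g x) →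
      Starshaped u (fun n x => g^[n] x) ∧ ExpLe u (fun n x => g^[n] x) 0) := by
  classical
  refine ⟨fun f u τ θ hf hτ hE hθ => ⟨?_, fun a b ha ha2 hb => ?_⟩, fun a ha ha2 => ?_,
    Pool.Agent.R482.ST.ex_mul, Pool.Agent.R482.ST.ex_pow, Pool.Agent.R482.ST.ex_orbit⟩
  · obtain ⟨C, hC⟩ := lengths_count
    obtain ⟨E, hE1, hE2⟩ := Pool.Agent.R482.ST.win_nat
      {p : ℕ | ∃ Z : Finset ℤ, IsCycle 3 1 Z ∧ Z.card = p} hf hτ hE (s := 12 / 13) (by norm_num) hθ (fun ε hε =>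
        ⟨|C|, fun X hX => by
          refine (hC X hX).trans ((mul_le_mul_of_nonneg_right (le_abs_self C) (by positivity)).trans ?_)
          exact mul_le_mul_of_nonneg_left
            (Real.rpow_le_rpow_of_exponent_le (by exact_mod_cast hX) (by linarith)) (abs_nonneg C)⟩)
    refine ⟨E, hE1, fun x hx hxE c => ?_⟩
    obtain ⟨k₀, hk⟩ := hE2 x hx hxE c
    exact ⟨k₀, fun k hk1 Z hZ hw => (hk k hk1 Z.card hw).2 ⟨Z, hZ, rfl⟩⟩
  · obtain ⟨η, hη0, hη, hH, hh⟩ := CyclesBelowEntropy.result a ha ha2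
    obtain ⟨C, hC0, hC⟩ := hh b hb
    obtain ⟨E, hE1, hE2⟩ := Pool.Agent.R482.ST.windows {Z : Finset ℤ | IsCycle a b Z} (fun Z => (top Z : ℝ)) hf hτ hE
      hη0.le hθ (fun ε hε => ⟨C, fun X hX => by
        have hsub : {Z : Finset ℤ | Z ∈ {Z : Finset ℤ | IsCycle a b Z} ∧ (top Z : ℝ) ≤ X} ⊆
            {c : Finset ℤ | CyclesBelowEntropy.IsCycle (CyclesBelowEntropy.T a b) c ∧ ∀ x ∈ c, |(x : ℝ)| ≤ X} := by
          rintro Z ⟨h2, h3⟩
          refine ⟨h2, fun x hx => (le_top hx).trans h3⟩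
        have hfin := cycles_finite (CyclesBelowEntropy.T a b) X
        refine ⟨hfin.subset hsub, ?_⟩
        have h4 := Set.ncard_le_ncard hsub hfin
        have h5 : (({Z : Finset ℤ | Z ∈ {Z : Finset ℤ | IsCycle a b Z} ∧ (top Z : ℝ) ≤ X}.ncard : ℕ) : ℝ) ≤
            ({c : Finset ℤ | CyclesBelowEntropy.IsCycle (CyclesBelowEntropy.T a b) c ∧
              ∀ x ∈ c, |(x : ℝ)| ≤ X}.ncard : ℝ) := by exact_mod_cast h4
        refine h5.trans ((hC X hX).trans ?_)
        exact mul_le_mul_of_nonneg_left (Real.rpow_le_rpow_of_exponent_le hX (by linarith)) hC0.le⟩)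
    have hη' : η ≤ entropy a := by
      have : η < entropy a := hη
      linarith
    refine ⟨E, dim_le hE1 hη' hθ, fun x hx hxE c => ?_⟩
    obtain ⟨k₀, hk⟩ := hE2 x hx hxE c
    exact ⟨k₀, fun k hk1 Z hZ hw => absurd (hk k hk1 Z hZ) (not_lt.2 hw)⟩
  · obtain ⟨η, hη0, hη, hH, hh⟩ := CyclesBelowEntropy.result a ha ha2
    exact hH

end Pool.Agent.Results.MP_dee342_nt.StarshapedSequences
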